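import Pool.Agent.helper21.WB.Basic

/-! WB-B3a: the Frobenius norm. -/

set_option autoImplicit false
open Matrix MeasureTheory

namespace Pool.Agent.helper21.WB

namespace B3a

attribute [local instance] Matrix.frobeniusNormedAddCommGroup Matrix.frobeniusNormedSpace

theorem fn_eq (A : Mat) : fn A = ‖A‖ := by
  rw [Matrix.frobenius_norm_def]
  unfold fn
  rw [Real.sqrt_eq_rpow]
  congr 1
  refine Finset.sum_congr rfl (fun i _ => Finset.sum_congr rfl (fun j _ => ?_))
  rw [Real.norm_eq_abs, Real.rpow_two, sq_abs]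

theorem add (A B : Mat) : fn (A + B) ≤ fn A + fn B := by
  rw [fn_eq, fn_eq, fn_eq]; exact norm_add_le A B
theorem sub (A B : Mat) : fn (A - B) ≤ fn A + fn B := by
  rw [fn_eq, fn_eq, fn_eq]; exact norm_sub_le A B
theorem neg (A : Mat) : fn (-A) = fn A := by
  rw [fn_eq, fn_eq]; exact norm_neg A
theorem smul (c : ℝ) (A : Mat) : fn (c • A) = |c| * fn A := by
  rw [fn_eq, fn_eq, norm_smul, Real.norm_eq_abs]
theorem mul (A B : Mat) : fn (A * B) ≤ fn A * fn B := by
  rw [fn_eq, fn_eq, fn_eq]; exact Matrix.frobenius_norm_mul A B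
theorem eq_zero (A : Mat) : fn A = 0 ↔ A = 0 := by
  rw [fn_eq]; exact norm_eq_zero

end B3a

theorem fn_nonneg (A : Mat) : 0 ≤ fn A := Real.sqrt_nonneg _
theorem fn_add (A B : Mat) : fn (A + B) ≤ fn A + fn B := B3a.add A B
theorem fn_sub (A B : Mat) : fn (A - B) ≤ fn A + fn B := B3a.sub A B
theorem fn_neg (A : Mat) : fn (-A) = fn A := B3a.neg A
theorem fn_smul (c : ℝ) (A : Mat) : fn (c • A) = |c| * fn A := B3a.smul c A
theorem fn_mul (A B : Mat) : fn (A * B) ≤ fn A * fn B := B3a.mul A B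
theorem fn_eq_zero (A : Mat) : fn A = 0 ↔ A = 0 := B3a.eq_zero A

theorem fn_one : fn (1 : Mat) = Real.sqrt 5 := by
  unfold fn
  congr 1
  have : ∀ i j : I, (1 : Mat) i j ^ 2 = if i = j then 1 else 0 := by
    intro i j
    rw [Matrix.one_apply]
    split_ifs <;> simp
  simp only [this]
  simp

theorem abs_entry_le_fn (A : Mat) (i j : I) : |A i j| ≤ fn A := by
  unfold fn
  refine Real.abs_le_sqrt ?_
  have h1 : A i j ^ 2 ≤ ∑ j, A i j ^ 2 :=
    Finset.single_le_sum (f := fun j => A i j ^ 2) (fun j _ => sq_nonneg _) (Finset.mem_univ j)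
  have h2 : ∑ j, A i j ^ 2 ≤ ∑ i, ∑ j, A i j ^ 2 :=
    Finset.single_le_sum (f := fun i => ∑ j, A i j ^ 2)
      (fun i _ => Finset.sum_nonneg (fun j _ => sq_nonneg _)) (Finset.mem_univ i)
  linarith

theorem continuous_fn : Continuous fn := by
  unfold fn
  refine Real.continuous_sqrt.comp ?_
  refine continuous_finsetSum _ (fun i _ => continuous_finsetSum _ (fun j _ => ?_))
  exact (Continuous.matrix_elem continuous_id i j).pow 2

namespace B3a

theorem J_apply (i j : I) : J i j = if i = j then (if i = o then -1 else 1) else 0 := by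
  rcases i with i | i <;> rcases j with j | j <;>
    simp [J, Matrix.fromBlocks, Matrix.one_apply]

theorem fn_sq (A : Mat) : fn A ^ 2 = ∑ i, ∑ j, A i j ^ 2 := by
  unfold fn
  rw [Real.sq_sqrt]
  exact Finset.sum_nonneg (fun i _ => Finset.sum_nonneg (fun j _ => sq_nonneg _))

theorem fn_transpose (A : Mat) : fn Aᵀ = fn A := by
  unfold fn
  congr 1
  rw [Finset.sum_comm]
  rfl

theorem mul_J_apply (A : Mat) (i j : I) : (A * J) i j = A i j * (if j = o then -1 else 1) := by
  rw [Matrix.mul_apply, Finset.sum_eq_single j]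
  · rw [J_apply]; simp
  · intro b _ hb
    rw [J_apply]; simp [hb]
  · intro h; exact absurd (Finset.mem_univ j) h

theorem J_mul_apply (A : Mat) (i j : I) : (J * A) i j = (if i = o then -1 else 1) * A i j := by
  rw [Matrix.mul_apply, Finset.sum_eq_single i]
  · rw [J_apply]; simp
  · intro b _ hb
    rw [J_apply]; simp [Ne.symm hb]
  · intro h; exact absurd (Finset.mem_univ i) h

theorem fn_mul_J (A : Mat) : fn (A * J) = fn A := by
  unfold fn
  congr 1
  refine Finset.sum_congr rfl (fun i _ => Finset.sum_congr rfl (fun j _ => ?_))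
  rw [mul_J_apply]
  split_ifs <;> ring

theorem fn_J_mul (A : Mat) : fn (J * A) = fn A := by
  unfold fn
  congr 1
  refine Finset.sum_congr rfl (fun i _ => Finset.sum_congr rfl (fun j _ => ?_))
  rw [J_mul_apply]
  split_ifs <;> ring

end B3a

theorem fn_sq_of_inG {g : GLI} (hg : InG g) : fn g.val ^ 2 = 1 + 4 * (g.val o o) ^ 2 := by
  rw [B3a.fn_sq]
  set A := g.val with hA
  have hcol : ∀ j : I, bl (fun i => A i j) (fun i => A i j) = J j j := by
    intro j
    have e := row_bl Aᵀ j j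
    rw [Matrix.transpose_transpose, hg.1] at e
    exact e.symm
  have hcol' : ∀ j : I, ∑ i : Fin 4, A (Sum.inl i) j ^ 2 = J j j + A o j ^ 2 := by
    intro j
    have := hcol j
    rw [bl_apply] at this
    have e : ∑ i : Fin 4, A (Sum.inl i) j * A (Sum.inl i) j = ∑ i : Fin 4, A (Sum.inl i) j ^ 2 :=
      Finset.sum_congr rfl (fun i _ => by ring)
    rw [e] at this
    linarith
  have hrow : ∑ j : Fin 4, A o (Sum.inl j) ^ 2 = A o o ^ 2 - 1 := by
    have e := congrFun (congrFun (mul_J_transpose hg.1) o) o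
    rw [row_bl, J_oo, bl_apply] at e
    have e' : ∑ i : Fin 4, A o (Sum.inl i) * A o (Sum.inl i) = ∑ i : Fin 4, A o (Sum.inl i) ^ 2 :=
      Finset.sum_congr rfl (fun i _ => by ring)
    rw [e'] at e
    linarith
  have hJ : ∀ j : Fin 4, J (Sum.inl j) (Sum.inl j) = 1 := by intro j; simp [J]
  rw [Finset.sum_comm]
  have h1 : ∀ j : I, ∑ i : I, A i j ^ 2 = J j j + 2 * A o j ^ 2 := by
    intro j
    rw [Fintype.sum_sum_type, hcol' j]
    simp
    ring
  simp only [h1]
  rw [Fintype.sum_sum_type]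
  simp only [Finset.sum_add_distrib, ← Finset.mul_sum, hJ, hrow]
  simp [J_oo]
  ring

theorem fn_inv_of_inG {g : GLI} (hg : InG g) : fn (g⁻¹ : GLI).val = fn g.val := by
  rw [hg.inv_val, B3a.fn_mul_J, B3a.fn_J_mul, B3a.fn_transpose]

theorem fn_inv_sub_one {g : GLI} (hg : InG g) : fn ((g⁻¹ : GLI).val - 1) = fn (g.val - 1) := by
  have : (g⁻¹ : GLI).val - 1 = J * (g.val - 1)ᵀ * J := by
    rw [hg.inv_val, Matrix.transpose_sub, Matrix.transpose_one, Matrix.mul_sub, Matrix.sub_mul,
      Matrix.mul_one, J_mul_J]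
  rw [this, B3a.fn_mul_J, B3a.fn_J_mul, B3a.fn_transpose]

end Pool.Agent.helper21.WB
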