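import Pool.Agent.helper21.WB.Basic

/-! WB-B1a: the metric of the hyperboloid model. -/

set_option autoImplicit false
open Matrix MeasureTheory

namespace Pool.Agent.helper21.WB

namespace B1a

theorem bl_smul_add (u w : I → ℝ) (t : ℝ) :
    bl (u + t • w) (u + t • w) = bl w w * (t * t) + 2 * bl u w * t + bl u u := by
  rw [bl_add_left, bl_add_right, bl_add_right, bl_smul_left, bl_smul_left, bl_smul_right,
    bl_smul_right, bl_comm w u]
  ring

/-- the form is positive semidefinite on the orthogonal complement of a point of hyperbolic space -/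
theorem bl_nonneg_of_orth (y : X) (v : I → ℝ) (h : bl v (lift y) = 0) : 0 ≤ bl v v := by
  rw [bl_apply] at *
  simp only [lift_inl] at h
  have cs := cs_spatial (fun i => v (Sum.inl i)) y
  have e2 : ∑ i : Fin 4, v (Sum.inl i) * v (Sum.inl i) = ∑ i : Fin 4, v (Sum.inl i) ^ 2 :=
    Finset.sum_congr rfl (fun i _ => by ring)
  rw [e2]
  have hy := lift_o_sq y
  have hy1 := lift_o_pos y
  have ha : 0 ≤ ∑ i : Fin 4, v (Sum.inl i) ^ 2 := Finset.sum_nonneg (fun i _ => sq_nonneg _)
  set a := ∑ i : Fin 4, v (Sum.inl i) ^ 2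
  set b := ∑ i : Fin 4, y i ^ 2
  have h1 : ∑ i : Fin 4, v (Sum.inl i) * y i = v o * lift y o := by linarith
  rw [h1] at cs
  have h2 : b = lift y o ^ 2 - 1 := by linarith
  rw [h2] at cs
  have h3 : (v o * v o) * lift y o ^ 2 ≤ a * lift y o ^ 2 := by nlinarith
  have h4 : 0 < lift y o ^ 2 := by positivity
  have h5 : v o * v o ≤ a := le_of_mul_le_mul_right h3 h4
  linarith

theorem cs_orth (y : X) (u w : I → ℝ) (hu : bl u (lift y) = 0) (hw : bl w (lift y) = 0) :
    bl u w ^ 2 ≤ bl u u * bl w w := by
  have h : ∀ t : ℝ, 0 ≤ bl w w * (t * t) + 2 * bl u w * t + bl u u := by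
    intro t
    rw [← bl_smul_add]
    apply bl_nonneg_of_orth y
    rw [bl_add_left, bl_smul_left, hu, hw]; ring
  have := discrim_le_zero h
  unfold discrim at this
  nlinarith

theorem ch_triangle (x y z : X) : ch x z ≤ Real.cosh (hd x y + hd y z) := by
  set a := hd x y with ha
  set b := hd y z with hb
  have hxy : bl (lift x) (lift y) = - Real.cosh a := by rw [ha, cosh_hd]; unfold ch; ring
  have hyz : bl (lift y) (lift z) = - Real.cosh b := by rw [hb, cosh_hd]; unfold ch; ring
  set u := lift x - Real.cosh a • lift y with hu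
  set w := lift z - Real.cosh b • lift y with hw
  have hu0 : bl u (lift y) = 0 := by
    rw [hu, bl_sub_left, bl_smul_left, hxy, bl_lift]; ring
  have hw0 : bl w (lift y) = 0 := by
    rw [hw, bl_sub_left, bl_smul_left, bl_comm, hyz, bl_lift]; ring
  have huu : bl u u = Real.sinh a ^ 2 := by
    rw [hu, bl_sub_left, bl_sub_right, bl_sub_right, bl_smul_left, bl_smul_left, bl_smul_right,
      bl_smul_right, bl_comm (lift y) (lift x), hxy, bl_lift, bl_lift]
    have := Real.cosh_sq a
    nlinarith
  have hww : bl w w = Real.sinh b ^ 2 := by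
    rw [hw, bl_sub_left, bl_sub_right, bl_sub_right, bl_smul_left, bl_smul_left, bl_smul_right,
      bl_smul_right, bl_comm (lift z) (lift y), hyz, bl_lift, bl_lift]
    have := Real.cosh_sq b
    nlinarith
  have huw : bl u w = bl (lift x) (lift z) + Real.cosh a * Real.cosh b := by
    rw [hu, hw, bl_sub_left, bl_sub_right, bl_sub_right, bl_smul_left, bl_smul_left, bl_smul_right,
      bl_smul_right, hxy, hyz, bl_lift]
    ring
  have cs := cs_orth y u w hu0 hw0
  rw [huu, hww, ← mul_pow] at cs
  have sa : 0 ≤ Real.sinh a := Real.sinh_nonneg_iff.2 (hd_nonneg x y)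
  have sb : 0 ≤ Real.sinh b := Real.sinh_nonneg_iff.2 (hd_nonneg y z)
  have h1 := (abs_le.1 (abs_le_of_sq_le_sq cs (mul_nonneg sa sb))).1
  rw [Real.cosh_add]
  unfold ch
  linarith

end B1a

theorem hd_triangle (x y z : X) : hd x z ≤ hd x y + hd y z := by
  have h := B1a.ch_triangle x y z
  rw [← cosh_hd, Real.cosh_le_cosh, abs_of_nonneg (hd_nonneg x z),
    abs_of_nonneg (add_nonneg (hd_nonneg x y) (hd_nonneg y z))] at h
  exact h

theorem hd_eq_zero (x y : X) : hd x y = 0 ↔ x = y := by
  refine ⟨fun h => ?_, fun h => by rw [h, hd_self]⟩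
  unfold hd at h
  rw [Real.arcosh_eq_zero_iff (one_le_ch x y)] at h
  unfold ch at h
  rw [bl_apply] at h
  simp only [lift_inl] at h
  have cs := cs_spatial x y
  have hx := lift_o_sq x
  have hy := lift_o_sq y
  set a := ∑ i : Fin 4, x i ^ 2 with ha
  set b := ∑ i : Fin 4, y i ^ 2 with hb
  set c := ∑ i : Fin 4, x i * y i with hc
  have h1 : (1 + c) ^ 2 = (1 + a) * (1 + b) := by
    rw [← hx, ← hy, ← mul_pow]; congr 1; linarith
  have e : ∑ i : Fin 4, (x i - y i) ^ 2 = a + b - 2 * c := by
    simp only [a, b, c, Finset.mul_sum, ← Finset.sum_add_distrib, ← Finset.sum_sub_distrib]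
    exact Finset.sum_congr rfl (fun i _ => by ring)
  have h2 : ∑ i : Fin 4, (x i - y i) ^ 2 ≤ 0 := by rw [e]; nlinarith
  have h3 : ∑ i : Fin 4, (x i - y i) ^ 2 = 0 :=
    le_antisymm h2 (Finset.sum_nonneg (fun i _ => sq_nonneg _))
  rw [Finset.sum_eq_zero_iff_of_nonneg (fun i _ => sq_nonneg _)] at h3
  ext i
  have := h3 i (Finset.mem_univ i)
  have := pow_eq_zero_iff (two_ne_zero) |>.1 this
  linarith

theorem continuous_lift : Continuous lift := by
  refine continuous_pi (fun i => ?_)
  rcases i with i | i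
  · exact continuous_apply i
  · show Continuous (fun y : X => Real.sqrt (1 + ∑ i, y i ^ 2))
    fun_prop

theorem continuous_ch : Continuous (fun p : X × X => ch p.1 p.2) := by
  have h1 : ∀ i, Continuous (fun p : X × X => lift p.1 i) := fun i =>
    (continuous_apply i).comp (continuous_lift.comp continuous_fst)
  have h2 : ∀ i, Continuous (fun p : X × X => lift p.2 i) := fun i =>
    (continuous_apply i).comp (continuous_lift.comp continuous_snd)
  have e : (fun p : X × X => ch p.1 p.2) = fun p : X × X =>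
      -(∑ i : Fin 4, lift p.1 (Sum.inl i) * lift p.2 (Sum.inl i) - lift p.1 o * lift p.2 o) := by
    ext p; unfold ch; rw [bl_apply]
  rw [e]
  refine Continuous.neg (Continuous.sub (continuous_finsetSum _ (fun i _ => ?_)) ?_)
  · exact (h1 _).mul (h2 _)
  · exact (h1 _).mul (h2 _)

theorem continuous_hd : Continuous (fun p : X × X => hd p.1 p.2) := by
  rw [← continuousOn_univ]
  exact Real.continuousOn_arcosh.comp continuous_ch.continuousOn (fun p _ => one_le_ch _ _)

theorem continuous_act {g : GLI} (_hg : InG g) : Continuous (act g) := by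
  refine continuous_pi (fun i => ?_)
  show Continuous (fun y => (g.val *ᵥ lift y) (Sum.inl i))
  exact (continuous_apply (Sum.inl i)).comp (Continuous.matrix_mulVec continuous_const continuous_lift)

/-- `cosh (hd 0 y) = sqrt (1+|y|²)` -/
theorem ch_zero (y : X) : ch 0 y = lift y o := by
  unfold ch
  rw [bl_apply]
  simp [lift_zero]

theorem isCompact_hball (x : X) (r : ℝ) : IsCompact {y | hd x y ≤ r} := by
  refine Metric.isCompact_of_isClosed_isBounded ?_ ?_
  · have h : Continuous (fun y => hd x y) := continuous_hd.comp (Continuous.prodMk_right x)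
    exact isClosed_le h continuous_const
  · rw [isBounded_iff_forall_norm_le]
    refine ⟨Real.cosh (hd 0 x + r), fun y hy => ?_⟩
    have h1 : hd 0 y ≤ hd 0 x + r := (hd_triangle 0 x y).trans (by have : hd x y ≤ r := hy; linarith)
    have h2 : lift y o ≤ Real.cosh (hd 0 x + r) := by
      rw [← ch_zero, ← cosh_hd, Real.cosh_le_cosh]
      rw [abs_of_nonneg (hd_nonneg 0 y), abs_of_nonneg ((hd_nonneg 0 y).trans h1)]
      exact h1
    refine le_trans ?_ h2
    rw [pi_norm_le_iff_of_nonneg (by linarith [lift_o_pos y])]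
    intro i
    rw [Real.norm_eq_abs, lift_inr]
    refine Real.abs_le_sqrt ?_
    have : y i ^ 2 ≤ ∑ i, y i ^ 2 :=
      Finset.single_le_sum (f := fun i => y i ^ 2) (fun i _ => sq_nonneg _) (Finset.mem_univ i)
    linarith

end Pool.Agent.helper21.WB
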