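import Pool.Agent.helper19.WB.B1a
import Pool.Agent.helper19.WB.B3a

/-! WB-B5a: discreteness. -/

set_option autoImplicit false
open Matrix MeasureTheory

namespace Pool.Agent.helper21.WB

namespace B5a

/-- a cube of matrices is compact -/
theorem isCompact_cube (R : ℝ) : IsCompact {A : Mat | ∀ i j, |A i j| ≤ R} := by
  have h : IsCompact (Set.pi Set.univ fun _ : I => Set.pi Set.univ fun _ : I => Set.Icc (-R) R) :=
    isCompact_univ_pi (fun _ => isCompact_univ_pi (fun _ => isCompact_Icc))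
  have e : {A : Mat | ∀ i j, |A i j| ≤ R} =
      (Set.pi Set.univ fun _ : I => Set.pi Set.univ fun _ : I => Set.Icc (-R) R) := by
    ext A
    constructor
    · intro h i _ j _
      exact abs_le.1 (h i j)
    · intro h i j
      exact abs_le.2 (h i trivial j trivial)
  rw [e]
  exact h

theorem isCompact_units (R : ℝ) :
    IsCompact {γ : GLI | (∀ i j, |γ.val i j| ≤ R) ∧ ∀ i j, |(γ⁻¹ : GLI).val i j| ≤ R} := by
  have h := (Units.isClosedEmbedding_embedProduct (α := Mat)).isCompact_preimage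
    (K := {A : Mat | ∀ i j, |A i j| ≤ R} ×ˢ (MulOpposite.unop ⁻¹' {A : Mat | ∀ i j, |A i j| ≤ R}))
    ((isCompact_cube R).prod
      ((MulOpposite.opHomeomorph (M := Mat)).symm.isCompact_preimage.2 (isCompact_cube R)))
  exact h

end B5a

theorem finite_fn_le {Γ : Subgroup GLI} (hΓ : Disc Γ) (R : ℝ) :
    {γ | γ ∈ Γ ∧ fn γ.val ≤ R}.Finite := by
  have := hΓ.disc
  have hcl : IsClosed (Γ : Set GLI) := Subgroup.isClosed_of_discrete
  have hK := (B5a.isCompact_units R).inter_right hcl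
  have hfin : ({γ : GLI | (∀ i j, |γ.val i j| ≤ R) ∧ ∀ i j, |(γ⁻¹ : GLI).val i j| ≤ R}
      ∩ (Γ : Set GLI)).Finite := by
    refine hK.finite ?_
    exact IsDiscrete.mono (s := (Γ : Set GLI)) ⟨hΓ.disc⟩ Set.inter_subset_right
  refine hfin.subset ?_
  rintro γ ⟨hγ, hR⟩
  refine ⟨⟨fun i j => (abs_entry_le_fn _ i j).trans hR, fun i j => ?_⟩, hγ⟩
  refine (abs_entry_le_fn _ i j).trans ?_
  rw [fn_inv_of_inG (hΓ.inG γ hγ)]
  exact hR

theorem finite_near {Γ : Subgroup GLI} (hΓ : Disc Γ) (x : X) (r R : ℝ) :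
    {γ | γ ∈ Γ ∧ ∃ y, hd x y ≤ r ∧ hd y (act γ y) ≤ R}.Finite := by
  refine (finite_fn_le hΓ (Real.sqrt (1 + 4 * Real.cosh (2 * (hd 0 x + r) + R) ^ 2))).subset ?_
  rintro γ ⟨hγ, y, hy, hR⟩
  refine ⟨hγ, Real.le_sqrt_of_sq_le ?_⟩
  have hg := hΓ.inG γ hγ
  rw [fn_sq_of_inG hg]
  have h1 : γ.val o o = ch 0 (act γ 0) := by
    have := gch_eq (g := 1) (h := γ) InG.one hg
    rw [act_one] at this
    rw [← this]
    unfold gch
    simp
  have h2 : hd 0 (act γ 0) ≤ 2 * (hd 0 x + r) + R := by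
    have t1 := hd_triangle 0 y (act γ 0)
    have t2 := hd_triangle y (act γ y) (act γ 0)
    have t3 := hd_triangle 0 x y
    rw [hd_act hg, hd_comm y 0] at t2
    linarith
  have h3 : ch 0 (act γ 0) ≤ Real.cosh (2 * (hd 0 x + r) + R) := by
    rw [← cosh_hd, Real.cosh_le_cosh, abs_of_nonneg (hd_nonneg _ _),
      abs_of_nonneg ((hd_nonneg 0 (act γ 0)).trans h2)]
    exact h2
  have h4 := one_le_ch 0 (act γ 0)
  rw [h1]
  have : ch 0 (act γ 0) ^ 2 ≤ Real.cosh (2 * (hd 0 x + r) + R) ^ 2 := by gcongr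
  linarith

theorem countable_of_disc {Γ : Subgroup GLI} (hΓ : Disc Γ) : Countable Γ := by
  have h : (Γ : Set GLI) = ⋃ n : ℕ, {γ | γ ∈ Γ ∧ fn γ.val ≤ n} := by
    ext γ
    rw [Set.mem_iUnion]
    refine ⟨fun h => ?_, fun ⟨n, h⟩ => h.1⟩
    obtain ⟨n, hn⟩ := exists_nat_ge (fn γ.val)
    exact ⟨n, h, hn⟩
  have : (Γ : Set GLI).Countable := by
    rw [h]
    exact Set.countable_iUnion (fun n => (finite_fn_le hΓ n).countable)
  exact this

end Pool.Agent.helper21.WB
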