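import Pool.Agent.helper21.WB.LibB

/-! WB-B5b: fundamental domains (dictionary between `IsFD` and Mathlib's `IsFundamentalDomain`). -/

set_option autoImplicit false
open Matrix MeasureTheory Pointwise
set_option linter.style.haveILetI false

namespace Pool.Agent.helper21.WB.B5b

open Pool.Agent.helper21.WB

/-- the action of a subgroup of `O^+(4,1)` on `X` -/
noncomputable abbrev actn {Γ : Subgroup GLI} (hΓ : ∀ γ ∈ Γ, InG γ) : MulAction Γ X where
  smul γ y := act γ.1 y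
  one_smul y := act_one y
  mul_smul _ b y := act_mul (hΓ b.1 b.2) y

theorem meas_act19 {g : GLI} (hg : InG g) : Measurable (act g) :=
  (continuous_act hg).measurable

theorem isFundamentalDomain {Γ : Subgroup GLI} {F : Set X} (hΓ : Disc Γ) (hF : IsFD Γ F) :
    letI := actn hΓ.inG
    IsFundamentalDomain Γ F μ := by
  letI := actn hΓ.inG
  refine ⟨hF.1.nullMeasurableSet, ?_, ?_⟩
  · filter_upwards [hF.2] with y hy
    obtain ⟨z, ⟨hz, γ, hγ, e⟩, -⟩ := hy
    exact ⟨⟨γ, hγ⟩, by show act γ y ∈ F; rw [e]; exact hz⟩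
  · intro g h hgh
    show μ (g • F ∩ h • F) = 0
    have h0 : μ {y | act (h.1 * g.1⁻¹) y = y} = 0 := by
      refine μ_fix ((hΓ.inG _ h.2).mul (hΓ.inG _ g.2).inv) ?_
      intro e
      exact hgh (Subtype.ext (mul_inv_eq_one.1 e).symm)
    have h1 : ∀ᵐ y ∂μ, y ∉ {y | act (h.1 * g.1⁻¹) y = y} := measure_eq_zero_iff_ae_notMem.1 h0
    refine measure_eq_zero_iff_ae_notMem.2 ?_
    filter_upwards [h1, hF.2] with y hy hu
    rintro ⟨⟨a, ha, ea⟩, ⟨b, hb, eb⟩⟩
    have ea' : act g.1 a = y := ea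
    have eb' : act h.1 b = y := eb
    have e1 : act g.1⁻¹ y = a := by rw [← ea', act_inv_act (hΓ.inG _ g.2)]
    have e2 : act h.1⁻¹ y = b := by rw [← eb', act_inv_act (hΓ.inG _ h.2)]
    have hab : a = b := by
      refine hu.unique ⟨ha, g.1⁻¹, Γ.inv_mem g.2, e1⟩ ⟨hb, h.1⁻¹, Γ.inv_mem h.2, e2⟩
    apply hy
    show act (h.1 * g.1⁻¹) y = y
    rw [act_mul (hΓ.inG _ g.2).inv, e1, hab, eb']

theorem smulInv {Γ : Subgroup GLI} (hΓ : ∀ γ ∈ Γ, InG γ) :
    letI := actn hΓ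
    SMulInvariantMeasure Γ X μ := by
  letI := actn hΓ
  refine ⟨fun c s hs => ?_⟩
  exact (measurePreserving_act (hΓ c.1 c.2)).measure_preimage hs.nullMeasurableSet

theorem measSMul {Γ : Subgroup GLI} (hΓ : ∀ γ ∈ Γ, InG γ) :
    letI := actn hΓ
    MeasurableConstSMul Γ X := by
  letI := actn hΓ
  exact ⟨fun c => meas_act19 (hΓ c.1 c.2)⟩

theorem μ_ne_zero : μ ≠ 0 := by
  intro h
  have h1 : μ Set.univ = 0 := by rw [h]; simp
  rw [μ_null_iff] at h1
  have : (volume : Measure X) ≠ 0 := NeZero.ne _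
  exact this (Measure.measure_univ_eq_zero.1 h1)

end Pool.Agent.helper21.WB.B5b

namespace Pool.Agent.helper21.WB

open B5b

theorem unfold_fd {Γ : Subgroup GLI} {F : Set X} (hΓ : Disc Γ) (hF : IsFD Γ F)
    (f : X → ENNReal) (hf : Measurable f) :
    ∫⁻ y, f y ∂μ = ∫⁻ y in F, ∑' γ : Γ, f (act γ.1 y) ∂μ := by
  letI := actn hΓ.inG
  haveI := smulInv hΓ.inG
  haveI := measSMul hΓ.inG
  haveI := countable_of_disc hΓ
  rw [(isFundamentalDomain hΓ hF).lintegral_eq_tsum'' f, lintegral_tsum]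
  · rfl
  · intro γ
    exact (hf.comp (meas_act19 (hΓ.inG _ γ.2))).aemeasurable

theorem fd_indep {Γ : Subgroup GLI} {F F' : Set X} (hΓ : Disc Γ) (hF : IsFD Γ F) (hF' : IsFD Γ F')
    (f : X → ENNReal) (_hf : Measurable f) (hinv : ∀ γ ∈ Γ, ∀ y, f (act γ y) = f y) :
    ∫⁻ y in F, f y ∂μ = ∫⁻ y in F', f y ∂μ := by
  letI := actn hΓ.inG
  haveI := smulInv hΓ.inG
  haveI := measSMul hΓ.inG
  haveI := countable_of_disc hΓ
  exact (isFundamentalDomain hΓ hF).setLIntegral_eq (isFundamentalDomain hΓ hF') f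
    (fun γ y => hinv γ.1 γ.2 y)

theorem fd_kernel {Γ : Subgroup GLI} {F : Set X} (hΓ : Disc Γ) (hF : IsFD Γ F)
    (k : X → X → ENNReal) (hk : Measurable (Function.uncurry k))
    (hsymm : ∀ x y, k x y = k y x) (hkinv : ∀ γ ∈ Γ, ∀ x y, k (act γ x) (act γ y) = k x y)
    (f : X → ENNReal) (hf : Measurable f) (hinv : ∀ γ ∈ Γ, ∀ y, f (act γ y) = f y) :
    ∫⁻ x in F, ∫⁻ y, k x y * f y ∂μ ∂μ = ∫⁻ y in F, f y * (∫⁻ x, k y x ∂μ) ∂μ := by
  haveI := countable_of_disc hΓ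
  have hk1 : ∀ x, Measurable (k x) := fun x => hk.comp measurable_prodMk_left
  have hmeas : Measurable (fun p : X × X => ∑' γ : Γ, k p.1 (act γ.1 p.2)) := by
    refine Measurable.tsum (fun γ => ?_)
    exact hk.comp (measurable_fst.prodMk ((meas_act19 (hΓ.inG _ γ.2)).comp measurable_snd))
  have hm2 : ∀ y, Measurable (fun x : X => ∑' γ : Γ, k x (act γ.1 y)) := fun y =>
    hmeas.comp (measurable_id.prodMk measurable_const)
  have e1 : ∀ x, ∫⁻ y, k x y * f y ∂μ = ∫⁻ y in F, (∑' γ : Γ, k x (act γ.1 y)) * f y ∂μ := by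
    intro x
    rw [unfold_fd hΓ hF (fun y => k x y * f y) ((hk1 x).mul hf)]
    refine lintegral_congr (fun y => ?_)
    rw [← ENNReal.tsum_mul_right]
    refine tsum_congr (fun γ => ?_)
    rw [hinv γ.1 γ.2]
  have e2 : ∀ y, ∫⁻ x, k y x ∂μ = ∫⁻ x in F, (∑' γ : Γ, k x (act γ.1 y)) ∂μ := by
    intro y
    rw [unfold_fd hΓ hF (fun x => k y x) (hk1 y)]
    refine lintegral_congr (fun x => ?_)
    rw [← (Equiv.inv Γ).tsum_eq (fun γ : Γ => k x (act γ.1 y))]
    refine tsum_congr (fun γ => ?_)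
    have hg := hΓ.inG _ γ.2
    have : k y (act γ.1 x) = k (act γ.1 (act (γ.1)⁻¹ y)) (act γ.1 x) := by
      rw [act_act_inv hg]
    rw [this, hkinv γ.1 γ.2, hsymm]
    rfl
  simp_rw [e1]
  rw [lintegral_lintegral_swap]
  · refine lintegral_congr (fun y => ?_)
    rw [e2 y, lintegral_mul_const _ (hm2 y), mul_comm]
  · exact (hmeas.mul (hf.comp measurable_snd)).aemeasurable

theorem fd_image {Γ : Subgroup GLI} {F : Set X} (hΓ : Disc Γ) (hF : IsFD Γ F) (E : Set X)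
    (hE : MeasurableSet E) (m : ℕ) (hm : ∀ y ∈ E, {γ | γ ∈ Γ ∧ act γ y ∈ E}.encard ≤ m) :
    μ E ≤ m * μ (F ∩ {y | ∃ γ ∈ Γ, act γ y ∈ E}) := by
  haveI := countable_of_disc hΓ
  set S : Set X := {y | ∃ γ ∈ Γ, act γ y ∈ E} with hS
  have hSm : MeasurableSet S := by
    have : S = ⋃ γ : Γ, act γ.1 ⁻¹' E := by
      ext y; simp [hS, Set.mem_iUnion]
    rw [this]
    exact MeasurableSet.iUnion (fun γ => meas_act19 (hΓ.inG _ γ.2) hE)
  have h1 : μ E = ∫⁻ y in F, ∑' γ : Γ, E.indicator (fun _ => (1 : ENNReal)) (act γ.1 y) ∂μ := by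
    rw [← unfold_fd hΓ hF (E.indicator (fun _ => 1)) (measurable_const.indicator hE)]
    rw [lintegral_indicator hE]; simp
  have h2 : ∀ y, ∑' γ : Γ, E.indicator (fun _ => (1 : ENNReal)) (act γ.1 y)
      ≤ S.indicator (fun _ => (m : ENNReal)) y := by
    intro y
    by_cases hy : y ∈ S
    · rw [Set.indicator_of_mem hy]
      obtain ⟨γ₀, hγ₀, h0⟩ := hy
      have e : ∀ γ : Γ, E.indicator (fun _ => (1 : ENNReal)) (act γ.1 y)
          = {γ : Γ | act γ.1 y ∈ E}.indicator (fun _ => (1 : ENNReal)) γ := by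
        intro γ; simp [Set.indicator]
      simp_rw [e]
      rw [← tsum_subtype, ENNReal.tsum_set_one]
      have hc : {γ : Γ | act γ.1 y ∈ E}.encard ≤ m := by
        refine le_trans ?_ (hm _ h0)
        have hinj : Function.Injective (fun γ : Γ => γ.1 * γ₀⁻¹) := by
          intro a b hab
          exact Subtype.ext (mul_right_cancel hab)
        rw [← hinj.encard_image]
        refine Set.encard_le_encard ?_
        rintro _ ⟨γ, hγ, rfl⟩
        refine ⟨Γ.mul_mem γ.2 (Γ.inv_mem hγ₀), ?_⟩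
        show act (γ.1 * γ₀⁻¹) (act γ₀ y) ∈ E
        rw [act_mul (hΓ.inG _ hγ₀).inv, act_inv_act (hΓ.inG _ hγ₀)]
        exact hγ
      exact_mod_cast hc
    · rw [Set.indicator_of_notMem hy]
      have : ∀ γ : Γ, E.indicator (fun _ => (1 : ENNReal)) (act γ.1 y) = 0 := by
        intro γ
        refine Set.indicator_of_notMem (fun h => hy ⟨γ.1, γ.2, h⟩) _
      simp [this]
  calc μ E ≤ ∫⁻ y in F, S.indicator (fun _ => (m : ENNReal)) y ∂μ := by
        rw [h1]; exact lintegral_mono h2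
    _ = m * μ (F ∩ S) := by
        rw [lintegral_indicator hSm, setLIntegral_const, Measure.restrict_apply hSm, Set.inter_comm]

theorem fd_nonempty {Γ : Subgroup GLI} {F : Set X} (hΓ : Disc Γ) (hF : IsFD Γ F) : 0 < μ F := by
  letI := actn hΓ.inG
  haveI := smulInv hΓ.inG
  haveI := countable_of_disc hΓ
  exact pos_iff_ne_zero.2 ((isFundamentalDomain hΓ hF).measure_ne_zero μ_ne_zero)

/-- passing to a subgroup of finite index -/
theorem fd_subgroup {Γ Γ' : Subgroup GLI} {F : Set X} (hΓ : Disc Γ) (hF : IsFD Γ F) (hle : Γ' ≤ Γ)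
    (n : ℕ) (hn : Γ'.relIndex Γ = n) (hn0 : n ≠ 0) :
    ∃ F' : Set X, IsFD Γ' F' ∧ μ F' = n * μ F := by
  classical
  haveI := countable_of_disc hΓ
  set H : Subgroup Γ := Γ'.subgroupOf Γ with hH
  have hidx : H.index = n := hn
  haveI : H.FiniteIndex := ⟨by rw [hidx]; exact hn0⟩
  haveI : Fintype (Γ ⧸ H) := Fintype.ofFinite _
  have hcard : Fintype.card (Γ ⧸ H) = n := by
    rw [← hidx, Subgroup.index, Nat.card_eq_fintype_card]
  set r : Γ ⧸ H → Γ := fun q => q.out with hr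
  have hr1 : ∀ q, (QuotientGroup.mk (r q) : Γ ⧸ H) = q := fun q => Quotient.out_eq' q
  have hG : ∀ γ : Γ, InG γ.1 := fun γ => hΓ.inG _ γ.2
  have hfree : ∀ᵐ y ∂μ, ∀ γ : Γ, γ ≠ 1 → act γ.1 y ≠ y := by
    rw [ae_all_iff]
    intro γ
    by_cases h : γ = 1
    · exact Filter.Eventually.of_forall (fun y hy => absurd h hy)
    · have h0 : μ {y | act γ.1 y = y} = 0 := μ_fix (hG γ) (fun e => h (Subtype.ext e))
      filter_upwards [measure_eq_zero_iff_ae_notMem.1 h0] with y hy _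
      exact hy
  have hfree' : ∀ y, (∀ γ : Γ, γ ≠ 1 → act γ.1 y ≠ y) → ∀ a b : Γ, act a.1 y = act b.1 y → a = b := by
    intro y hy a b hab
    by_contra hne
    refine hy (b⁻¹ * a) ?_ ?_
    · intro e; exact hne (inv_mul_eq_one.1 e).symm
    · show act (b.1⁻¹ * a.1) y = y
      rw [act_mul (hG a), hab, act_inv_act (hG b)]
  have hmS : ∀ q, MeasurableSet (act (r q).1 ⁻¹' F) := fun q => meas_act19 (hG _) hF.1
  refine ⟨⋃ q : Γ ⧸ H, act (r q).1 ⁻¹' F, ⟨MeasurableSet.iUnion hmS, ?_⟩, ?_⟩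
  · filter_upwards [hF.2, hfree] with y hy hfr
    obtain ⟨z, ⟨hz, γ₀, hγ₀, e⟩, hzu⟩ := hy
    set g₀ : Γ := ⟨γ₀, hγ₀⟩ with hg₀
    set q : Γ ⧸ H := QuotientGroup.mk g₀ with hq
    have hh : (r q)⁻¹ * g₀ ∈ H := by
      rw [← QuotientGroup.eq, hr1]
    have hh' : ((r q).1)⁻¹ * γ₀ ∈ Γ' := by
      simpa [hH, Subgroup.mem_subgroupOf] using hh
    refine ⟨act (((r q).1)⁻¹ * γ₀) y, ⟨?_, _, hh', rfl⟩, ?_⟩
    · refine Set.mem_iUnion.2 ⟨q, ?_⟩
      show act (r q).1 (act (((r q).1)⁻¹ * γ₀) y) ∈ F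
      rw [act_mul (hΓ.inG _ hγ₀), act_act_inv (hG _), e]
      exact hz
    · rintro w ⟨hw, h', hh'', rfl⟩
      obtain ⟨q', hq'⟩ := Set.mem_iUnion.1 hw
      have hq'' : act (r q').1 (act h' y) ∈ F := hq'
      have hΓh : h' ∈ Γ := hle hh''
      rw [← act_mul (hΓ.inG _ hΓh)] at hq''
      have e2 : act ((r q').1 * h') y = z :=
        hzu _ ⟨hq'', _, Γ.mul_mem (r q').2 hΓh, rfl⟩
      have e3 : (r q') * ⟨h', hΓh⟩ = g₀ := by
        refine hfree' y hfr _ _ ?_
        show act ((r q').1 * h') y = act γ₀ y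
        rw [e2, e]
      have e4 : q' = q := by
        rw [← hr1 q', hq, ← e3, QuotientGroup.eq]
        simpa [hH, Subgroup.mem_subgroupOf] using hh''
      have e5 : h' = ((r q).1)⁻¹ * γ₀ := by
        have := congrArg Subtype.val e3
        rw [e4] at this
        change (r q).1 * h' = γ₀ at this
        rw [← this]; group
      rw [e5]
  · rw [measure_iUnion₀]
    · have : ∀ q : Γ ⧸ H, μ (act (r q).1 ⁻¹' F) = μ F := fun q =>
        (measurePreserving_act (hG (r q))).measure_preimage hF.1.nullMeasurableSet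
      rw [tsum_congr this, tsum_fintype, Finset.sum_const, Finset.card_univ, hcard]
      simp
    · intro q q' hqq
      show μ (act (r q).1 ⁻¹' F ∩ act (r q').1 ⁻¹' F) = 0
      refine measure_eq_zero_iff_ae_notMem.2 ?_
      filter_upwards [hF.2, hfree] with y hy hfr
      rintro ⟨h1, h2⟩
      have := hy.unique ⟨h1, _, (r q).2, rfl⟩ ⟨h2, _, (r q').2, rfl⟩
      have := hfree' y hfr _ _ this
      apply hqq
      rw [← hr1 q, ← hr1 q', this]
    · exact fun q => (hmS q).nullMeasurableSet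

end Pool.Agent.helper21.WB
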