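import Pool.Agent.helper21.WB.LibB

/-! WB-Z5: counting the elements of bounded displacement. -/

set_option autoImplicit false
open Matrix MeasureTheory

namespace Pool.Agent.helper21.WB

namespace Z5

/-- covering a cube of matrices by small cells -/
theorem cells (S : Set GLI) (hS : S.Finite) (f : GLI → Mat) (M ε : ℝ) (hM : 0 ≤ M) (hε : 0 < ε)
    (hf : ∀ γ ∈ S, ∀ i j, |f γ i j| ≤ M) (K : ℕ)
    (hK : ∀ δ ∈ S, {γ | γ ∈ S ∧ ∀ i j, |f γ i j - f δ i j| ≤ ε}.ncard ≤ K) :
    (S.ncard : ℝ) ≤ (2 * M / ε + 3) ^ 25 * K := by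
  classical
  set F := hS.toFinset with hF
  have hcard : S.ncard = F.card := Set.ncard_eq_toFinset_card S hS
  set cell : GLI → (I × I → ℤ) := fun γ p => ⌊f γ p.1 p.2 / ε⌋ with hcell
  -- the possible values of the cells
  set N : ℤ := ⌈M / ε⌉ with hN
  have hN0 : 0 ≤ N := Int.ceil_nonneg (by positivity)
  set T : Finset (I × I → ℤ) := Fintype.piFinset (fun _ => Finset.Icc (-N) N) with hT
  have hmaps : ∀ γ ∈ F, cell γ ∈ T := by
    intro γ hγ
    rw [hT, Fintype.mem_piFinset]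
    intro p
    rw [Finset.mem_Icc]
    have h := abs_le.1 (hf γ (hS.mem_toFinset.1 hγ) p.1 p.2)
    have hNM : M / ε ≤ N := Int.le_ceil _
    refine ⟨?_, ?_⟩
    · rw [Int.le_floor]
      push_cast
      have : -(M / ε) ≤ f γ p.1 p.2 / ε := by rw [← neg_div]; exact div_le_div_of_nonneg_right h.1 hε.le
      linarith
    · have h1 : (⌊f γ p.1 p.2 / ε⌋ : ℝ) ≤ f γ p.1 p.2 / ε := Int.floor_le _
      have h2 : f γ p.1 p.2 / ε ≤ M / ε := div_le_div_of_nonneg_right h.2 hε.le
      have h3 : (⌊f γ p.1 p.2 / ε⌋ : ℝ) ≤ N := h1.trans (h2.trans hNM)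
      exact_mod_cast h3
  have hfib : ∀ c ∈ T, (F.filter (fun γ => cell γ = c)).card ≤ K := by
    intro c _
    rcases (F.filter (fun γ => cell γ = c)).eq_empty_or_nonempty with h | ⟨δ, hδ⟩
    · rw [h]; simp
    · rw [Finset.mem_filter] at hδ
      have hδS := hS.mem_toFinset.1 hδ.1
      refine le_trans ?_ (hK δ hδS)
      rw [← Set.ncard_coe_finset]
      refine Set.ncard_le_ncard ?_ (hS.subset (fun γ h => h.1))
      intro γ hγ
      rw [Finset.mem_coe, Finset.mem_filter] at hγ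
      refine ⟨hS.mem_toFinset.1 hγ.1, fun i j => ?_⟩
      have e : ⌊f γ i j / ε⌋ = ⌊f δ i j / ε⌋ := congrFun (hγ.2.trans hδ.2.symm) (i, j)
      have h1 := Int.abs_sub_lt_one_of_floor_eq_floor e
      rw [← sub_div, abs_div, abs_of_pos hε, div_lt_one hε] at h1
      exact h1.le
  have h1 : F.card ≤ K * T.card := by
    exact Finset.card_le_mul_card_image_of_maps_to hmaps K hfib
  have h2 : (T.card : ℝ) ≤ (2 * M / ε + 3) ^ 25 := by
    have hcT : T.card = (N + 1 - -N).toNat ^ 25 := by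
      rw [hT, Fintype.card_piFinset, Finset.prod_const, Int.card_Icc, Finset.card_univ]
      simp
    rw [hcT]
    push_cast
    have hNM : (N : ℝ) < M / ε + 1 := Int.ceil_lt_add_one _
    have e : ((N + 1 - -N).toNat : ℝ) = 2 * N + 1 := by
      have : ((N + 1 - -N).toNat : ℤ) = 2 * N + 1 := by
        rw [Int.toNat_of_nonneg (by omega)]; ring
      exact_mod_cast this
    rw [e]
    have : (0:ℝ) ≤ N := by exact_mod_cast hN0
    refine pow_le_pow_left₀ (by positivity) ?_ 25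
    have : 2 * M / ε = 2 * (M / ε) := by ring
    rw [this]; linarith
  rw [hcard]
  calc (F.card : ℝ) ≤ K * T.card := by exact_mod_cast h1
    _ ≤ K * (2 * M / ε + 3) ^ 25 := by gcongr
    _ = _ := mul_comm _ _

end Z5

/-- [Z5] displacement count: all elements moving `y` by at most `r` -/
theorem count_near : ∀ η : ℝ, 0 < η → ∃ C : ℝ, 0 < C ∧ ∀ (Γ : Subgroup GLI), Disc Γ → ∀ (y : X) (r : ℝ),
    0 ≤ r → ({γ | γ ∈ Γ ∧ hd y (act γ y) ≤ r}.ncard : ℝ) ≤
      C * Real.exp (C * r) * ({γ | γ ∈ Γ ∧ sm y γ ≤ η}.ncard : ℝ) := by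
  intro η hη
  refine ⟨(90 / η + 3) ^ 25 + 50, by positivity, ?_⟩
  intro Γ hΓ y r hr
  set g := bst y with hg
  have hgG : InG g := bst_inG y
  have hgy : act g 0 = y := act_bst y
  set S : Set GLI := {γ | γ ∈ Γ ∧ hd y (act γ y) ≤ r} with hS
  set S' : Set GLI := {γ | γ ∈ Γ ∧ sm y γ ≤ η} with hS'
  have hSfin : S.Finite := by
    refine (finite_near hΓ y 0 r).subset ?_
    rintro γ ⟨h1, h2⟩
    exact ⟨h1, y, by rw [hd_self], h2⟩
  have hS'fin : S'.Finite := by
    refine (finite_near hΓ y 0 (Real.arcosh (1 + η))).subset ?_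
    rintro γ ⟨h1, h2⟩
    refine ⟨h1, y, by rw [hd_self], ?_⟩
    unfold hd
    rw [Real.arcosh_le_arcosh (by linarith [one_le_ch y (act γ y)]) (by linarith)]
    have := ch_le_of_sm (hΓ.inG γ h1) y
    linarith
  set M : ℝ := 3 * Real.exp r with hM
  have hM0 : 0 < M := by positivity
  set ε : ℝ := η / (5 * M) with hε
  have hε0 : 0 < ε := by positivity
  have hcosh : Real.cosh r ≤ Real.exp r := by
    rw [Real.cosh_eq]
    have : Real.exp (-r) ≤ Real.exp r := Real.exp_le_exp.2 (by linarith)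
    linarith
  have hfnM : ∀ γ ∈ S, nrm y γ.val ≤ M := by
    rintro γ ⟨h1, h2⟩
    refine (nrm_le_of_ch (hΓ.inG γ h1) y).trans ?_
    rw [hM]
    refine Real.sqrt_le_iff.2 ⟨by positivity, ?_⟩
    have h3 : ch y (act γ y) ≤ Real.cosh r := by
      rw [← cosh_hd, Real.cosh_le_cosh, abs_of_nonneg (hd_nonneg _ _), abs_of_nonneg hr]
      exact h2
    have h4 := one_le_ch y (act γ y)
    have h5 : ch y (act γ y) ^ 2 ≤ Real.exp r ^ 2 := by
      have := h3.trans hcosh
      gcongr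
    have h6 : 1 ≤ Real.exp r := Real.one_le_exp hr
    nlinarith
  have hnf : ∀ A : Mat, nrm y A = fn ((g⁻¹ : GLI).val * A * g.val) := by
    intro A; rw [← nrm_act hgG, hgy]
  have key := Z5.cells S hSfin (fun γ => (g⁻¹ : GLI).val * γ.val * g.val) M ε hM0.le hε0
    (fun γ hγ i j => (abs_entry_le_fn _ i j).trans (by rw [← hnf]; exact hfnM γ hγ)) S'.ncard ?_
  · refine key.trans ?_
    have e1 : 2 * M / ε = 90 / η * Real.exp (2 * r) := by
      rw [hε, hM]
      have : Real.exp (2 * r) = Real.exp r * Real.exp r := by rw [← Real.exp_add]; ring_nf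
      rw [this]
      field_simp
      ring
    have h6 : 1 ≤ Real.exp (2 * r) := Real.one_le_exp (by linarith)
    have e2 : 2 * M / ε + 3 ≤ (90 / η + 3) * Real.exp (2 * r) := by
      rw [e1]; nlinarith
    have h7 : 0 ≤ 2 * M / ε + 3 := by positivity
    calc (2 * M / ε + 3) ^ 25 * (S'.ncard : ℝ)
        ≤ ((90 / η + 3) * Real.exp (2 * r)) ^ 25 * (S'.ncard : ℝ) := by gcongr
      _ = (90 / η + 3) ^ 25 * Real.exp (50 * r) * (S'.ncard : ℝ) := by
          rw [mul_pow, ← Real.exp_nat_mul]; congr 3; push_cast; ring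
      _ ≤ ((90 / η + 3) ^ 25 + 50) * Real.exp (((90 / η + 3) ^ 25 + 50) * r) * (S'.ncard : ℝ) := by
          have h8 : (0:ℝ) ≤ (90 / η + 3) ^ 25 := by positivity
          gcongr <;> linarith
  · intro δ hδ
    have hδG := hΓ.inG δ hδ.1
    have hinj : Function.Injective (fun γ : GLI => δ⁻¹ * γ) := mul_right_injective δ⁻¹
    rw [← Set.ncard_image_of_injective _ hinj]
    refine Set.ncard_le_ncard ?_ hS'fin
    rintro _ ⟨γ, ⟨hγ, hc⟩, rfl⟩
    refine ⟨Γ.mul_mem (Γ.inv_mem hδ.1) hγ.1, ?_⟩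
    show sm y (δ⁻¹ * γ) ≤ η
    unfold sm
    have e : ((δ⁻¹ * γ : GLI)).val - 1 = (δ⁻¹ : GLI).val * (γ.val - δ.val) := by
      rw [Matrix.mul_sub, ← Units.val_mul, ← Units.val_mul, inv_mul_cancel, Units.val_one]
    rw [e]
    refine (nrm_mul y _ _).trans ?_
    have h1 : nrm y (δ⁻¹ : GLI).val ≤ M := by
      have e2 : nrm y (δ⁻¹ : GLI).val = nrm y δ.val := by
        rw [hnf, hnf]
        have := fn_inv_of_inG (g := g⁻¹ * δ * g) ((hgG.inv.mul hδG).mul hgG)
        have e3 : ((g⁻¹ * δ * g)⁻¹ : GLI) = g⁻¹ * δ⁻¹ * g := by group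
        rw [e3] at this
        simpa only [Units.val_mul] using this
      rw [e2]; exact hfnM δ hδ
    have h2 : nrm y (γ.val - δ.val) ≤ 5 * ε := by
      rw [hnf]
      have h3 : ∀ i j, |((g⁻¹ : GLI).val * (γ.val - δ.val) * g.val) i j| ≤ ε := by
        intro i j
        have := hc i j
        have e4 : ((g⁻¹ : GLI).val * (γ.val - δ.val) * g.val) =
          (g⁻¹ : GLI).val * γ.val * g.val - (g⁻¹ : GLI).val * δ.val * g.val := by
            rw [Matrix.mul_sub, Matrix.sub_mul]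
        rw [e4, Matrix.sub_apply]
        exact this
      unfold fn
      refine Real.sqrt_le_iff.2 ⟨by positivity, ?_⟩
      calc ∑ i : I, ∑ j : I, ((g⁻¹ : GLI).val * (γ.val - δ.val) * g.val) i j ^ 2
          ≤ ∑ _i : I, ∑ _j : I, ε ^ 2 := by
            refine Finset.sum_le_sum (fun i _ => Finset.sum_le_sum (fun j _ => ?_))
            rw [← sq_abs]
            have := h3 i j
            gcongr
        _ = (5 * ε) ^ 2 := by simp; ring
    calc nrm y (δ⁻¹ : GLI).val * nrm y (γ.val - δ.val) ≤ M * (5 * ε) := by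
          have := nrm_nonneg y (γ.val - δ.val)
          gcongr
      _ = η := by rw [hε]; field_simp

end Pool.Agent.helper21.WB
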